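import Mathlib

set_option autoImplicit false

/-!
# Continuous maps from `C_p(K)` to a normed space with its weak topology are locally bounded
-/

namespace Pool.Agent.CpCw

open Set Topology

variable {X : Type*} [NormedAddCommGroup X] [NormedSpace ℝ X]

/-- Finitely many vectors are simultaneously almost normed by one functional. -/
theorem exists_dual (s : ℕ) (g : Fin s → X) :
    ∃ ν : StrongDual ℝ X, ‖ν‖ ≤ 1 ∧ ∀ j, (1 / 8 : ℝ) ^ s * ‖g j‖ ≤ |ν (g j)| := by
  induction s with
  | zero => exact ⟨0, by simp, fun j => j.elim0⟩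
  | succ s ih =>
    obtain ⟨ν, hν, hg⟩ := ih (fun j => g j.castSucc)
    obtain ⟨μ, hμ, hμg⟩ := exists_dual_vector'' ℝ (g (Fin.last s))
    have hμg' : μ (g (Fin.last s)) = ‖g (Fin.last s)‖ := by simpa using hμg
    set c : ℝ := (1 / 8 : ℝ) ^ s with hc
    have hc0 : 0 < c := by positivity
    have hc1 : c ≤ 1 := pow_le_one₀ (by norm_num) (by norm_num)
    by_cases h : c / 8 * ‖g (Fin.last s)‖ ≤ |ν (g (Fin.last s))|
    · refine ⟨ν, hν, fun j => ?_⟩
      have e : (1 / 8 : ℝ) ^ (s + 1) = c / 8 := by rw [pow_succ]; ring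
      rw [e]
      refine Fin.lastCases h (fun i => ?_) j
      refine le_trans ?_ (hg i)
      have : 0 ≤ ‖g i.castSucc‖ := norm_nonneg _
      nlinarith
    · push Not at h
      refine ⟨(1 - c / 4) • ν + (c / 4) • μ, ?_, fun j => ?_⟩
      · calc ‖(1 - c / 4) • ν + (c / 4) • μ‖ ≤ ‖(1 - c / 4) • ν‖ + ‖(c / 4) • μ‖ :=
              norm_add_le _ _
          _ = |1 - c / 4| * ‖ν‖ + |c / 4| * ‖μ‖ := by
              rw [norm_smul, norm_smul, Real.norm_eq_abs, Real.norm_eq_abs]
          _ ≤ (1 - c / 4) * 1 + c / 4 * 1 := by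
              rw [abs_of_nonneg (by linarith : (0 : ℝ) ≤ 1 - c / 4),
                abs_of_nonneg (by linarith : (0 : ℝ) ≤ c / 4)]
              gcongr
              linarith
          _ = 1 := by ring
      · have e : (1 / 8 : ℝ) ^ (s + 1) = c / 8 := by rw [pow_succ]; ring
        rw [e]
        have ev : ∀ x : X, ((1 - c / 4) • ν + (c / 4) • μ) x
            = (1 - c / 4) * ν x + c / 4 * μ x := fun x => by simp
        rw [ev]
        refine Fin.lastCases ?_ (fun i => ?_) j
        · rw [hμg']
          have h1 := (abs_lt.1 h).1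
          have hn : 0 ≤ ‖g (Fin.last s)‖ := norm_nonneg _
          have h2 : (1 - c / 4) * ν (g (Fin.last s)) ≥ - (c / 8 * ‖g (Fin.last s)‖) := by
            have : (1 - c / 4) * ν (g (Fin.last s)) ≥ (1 - c / 4) * (-(c / 8 * ‖g (Fin.last s)‖)) :=
              mul_le_mul_of_nonneg_left h1.le (by linarith)
            have h3 : 0 ≤ c / 8 * ‖g (Fin.last s)‖ := by positivity
            nlinarith
          refine le_trans ?_ (le_abs_self _)
          linarith
        · have h1 := hg i
          have hn : 0 ≤ ‖g i.castSucc‖ := norm_nonneg _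
          have h2 : |μ (g i.castSucc)| ≤ ‖g i.castSucc‖ := by
            have := μ.le_opNorm (g i.castSucc)
            rw [Real.norm_eq_abs] at this
            nlinarith
          have h3 : |(1 - c / 4) * ν (g i.castSucc) + c / 4 * μ (g i.castSucc)|
              ≥ |(1 - c / 4) * ν (g i.castSucc)| - |c / 4 * μ (g i.castSucc)| := by
            have := abs_sub_abs_le_abs_sub ((1 - c / 4) * ν (g i.castSucc))
              (-(c / 4 * μ (g i.castSucc)))
            rw [sub_neg_eq_add, abs_neg] at this
            exact this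
          rw [abs_mul, abs_mul, abs_of_nonneg (by linarith : (0 : ℝ) ≤ 1 - c / 4),
            abs_of_nonneg (by linarith : (0 : ℝ) ≤ c / 4)] at h3
          have h4 : (1 - c / 4) * (c * ‖g i.castSucc‖) ≤ (1 - c / 4) * |ν (g i.castSucc)| :=
            mul_le_mul_of_nonneg_left h1 (by linarith)
          have h5 : c / 4 * |μ (g i.castSucc)| ≤ c / 4 * ‖g i.castSucc‖ :=
            mul_le_mul_of_nonneg_left h2 (by linarith)
          have h6 : c / 8 * ‖g i.castSucc‖ ≤
              (1 - c / 4) * (c * ‖g i.castSucc‖) - c / 4 * ‖g i.castSucc‖ := by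
            have : 0 ≤ c * ‖g i.castSucc‖ := by positivity
            nlinarith [mul_nonneg hc0.le this, mul_le_mul_of_nonneg_right hc1 this]
          linarith

end Pool.Agent.CpCw
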