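import Pool.Agent.Lib_helper7.CpCw.Main

set_option autoImplicit false

/-!
# `C_p(K)` is not homeomorphic to an infinite-dimensional normed space with its weak topology
-/

namespace Pool.Agent.CpCw

open Set Topology

variable {X : Type*} [NormedAddCommGroup X] [NormedSpace ℝ X]

theorem continuous_eval (ν : StrongDual ℝ X) :
    Continuous fun w : WeakSpace ℝ X => ν ((toWeakSpace ℝ X).symm w) :=
  WeakBilin.eval_continuous (topDualPairing ℝ X).flip ν

/-- Every weak neighbourhood of a point of an infinite-dimensional normed space contains a line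
through this point. -/
theorem exists_line (hX : ¬ Module.Finite ℝ X) (w₀ : WeakSpace ℝ X) {W : Set (WeakSpace ℝ X)}
    (hW : W ∈ 𝓝 w₀) :
    ∃ v : X, v ≠ 0 ∧ ∀ c : ℝ, toWeakSpace ℝ X ((toWeakSpace ℝ X).symm w₀ + c • v) ∈ W := by
  have h1 : 𝓝 w₀ = Filter.comap (fun (w : WeakSpace ℝ X) (ν : StrongDual ℝ X) =>
      ν ((toWeakSpace ℝ X).symm w)) (𝓝 fun ν => ν ((toWeakSpace ℝ X).symm w₀)) :=
    nhds_induced _ _
  rw [h1, Filter.mem_comap] at hW
  obtain ⟨V, hV, hVW⟩ := hW
  rw [nhds_pi, Filter.mem_pi] at hV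
  obtain ⟨I, hI, t, ht, htV⟩ := hV
  have : Finite I := hI
  let L : X →ₗ[ℝ] (I → ℝ) := LinearMap.pi fun ν => (ν.1 : StrongDual ℝ X).toLinearMap
  have hL : ¬ Function.Injective L := fun h => hX (Module.Finite.of_injective L h)
  rw [← LinearMap.ker_eq_bot, Submodule.eq_bot_iff] at hL
  push Not at hL
  obtain ⟨v, hv, hv0⟩ := hL
  refine ⟨v, hv0, fun c => hVW (htV fun ν hν => ?_)⟩
  have h2 : ν v = 0 := by
    have := congrFun (LinearMap.mem_ker.1 hv) ⟨ν, hν⟩
    simpa [L] using this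
  simp only [LinearEquiv.symm_apply_apply, map_add, map_smul, h2, smul_zero, add_zero]
  exact mem_of_mem_nhds (ht ν)

variable {K : Type*} [TopologicalSpace K] [CompactSpace K] [T2Space K]

/-- Every map from `C_p(K)` which is continuous for the weak topology of a normed space is
norm-bounded near every point. -/
theorem locally_bounded' (Φ : Cp K → WeakSpace ℝ X) (hΦ : Continuous Φ) (f₀ : Cp K) :
    ∃ H : ℝ, ∃ O ∈ 𝓝 f₀, ∀ f ∈ O, ‖(toWeakSpace ℝ X).symm (Φ f)‖ ≤ H := by
  let T : Cp K → Cp K := fun f => ⟨fun x => f₀.1 x + f.1 x, f₀.2.add f.2⟩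
  have hT : Continuous T := by
    refine Continuous.subtype_mk (continuous_pi fun x => ?_) _
    exact continuous_const.add ((continuous_apply x).comp continuous_subtype_val)
  let z : Cp K := ⟨0, continuous_zero⟩
  have hTz : T z = f₀ := by
    refine Subtype.ext (funext fun x => ?_)
    simp [T, z]
  let Ψ : Cp K → X := fun f => (toWeakSpace ℝ X).symm (Φ (T f)) - (toWeakSpace ℝ X).symm (Φ f₀)
  have hΨ : ∀ ν : StrongDual ℝ X, Continuous fun f => ν (Ψ f) := by
    intro ν
    simp only [Ψ, map_sub]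
    exact ((continuous_eval ν).comp (hΦ.comp hT)).sub continuous_const
  obtain ⟨H, ε, hε, A, hA⟩ := locally_bounded Ψ z rfl (by simp [Ψ, hTz]) hΨ
  refine ⟨H + ‖(toWeakSpace ℝ X).symm (Φ f₀)‖, {f | ∀ x ∈ A, |f.1 x - f₀.1 x| < ε}, ?_, ?_⟩
  · have hopen : IsOpen {f : Cp K | ∀ x ∈ A, |f.1 x - f₀.1 x| < ε} := by
      have : {f : Cp K | ∀ x ∈ A, |f.1 x - f₀.1 x| < ε}
          = ⋂ x ∈ A, {f : Cp K | |f.1 x - f₀.1 x| < ε} := by
        ext f; simp
      rw [this]
      refine isOpen_biInter_finset fun x _ => isOpen_lt ?_ continuous_const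
      exact (((continuous_apply x).comp continuous_subtype_val).sub continuous_const).abs
    exact hopen.mem_nhds (by
      show ∀ x ∈ A, |f₀.1 x - f₀.1 x| < ε
      intro x _
      simpa using hε)
  · intro f hf
    let g : Cp K := ⟨fun x => f.1 x - f₀.1 x, f.2.sub f₀.2⟩
    have hTg : T g = f := by
      refine Subtype.ext (funext fun x => ?_)
      simp [T, g]
    have h1 : ‖Ψ g‖ ≤ H := hA g (fun x hx => hf x hx)
    have h2 : (toWeakSpace ℝ X).symm (Φ f) = Ψ g + (toWeakSpace ℝ X).symm (Φ f₀) := by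
      simp [Ψ, hTg]
    rw [h2]
    exact (norm_add_le _ _).trans (by linarith)

/-- `C_p(K)` is not homeomorphic to an infinite-dimensional normed space with its weak topology.
-/
theorem not_homeomorph (hX : ¬ Module.Finite ℝ X) : ¬ Nonempty (Cp K ≃ₜ WeakSpace ℝ X) := by
  rintro ⟨Φ⟩
  let z : Cp K := ⟨0, continuous_zero⟩
  obtain ⟨H, O, hO, hb⟩ := locally_bounded' Φ Φ.continuous z
  have hW : Φ '' O ∈ 𝓝 (Φ z) := Φ.isOpenMap.image_mem_nhds hO
  obtain ⟨v, hv, hline⟩ := exists_line hX (Φ z) hW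
  have hv' : 0 < ‖v‖ := norm_pos_iff.2 hv
  set y := (toWeakSpace ℝ X).symm (Φ z) with hy
  obtain ⟨f, hf, hfe⟩ := hline ((|H| + ‖y‖ + 1) / ‖v‖)
  have h1 := hb f hf
  rw [hfe, LinearEquiv.symm_apply_apply] at h1
  have h2 : ‖((|H| + ‖y‖ + 1) / ‖v‖) • v‖ = |H| + ‖y‖ + 1 := by
    rw [norm_smul, Real.norm_eq_abs, abs_of_nonneg (by positivity), div_mul_cancel₀ _ hv'.ne']
  have h3 : ‖((|H| + ‖y‖ + 1) / ‖v‖) • v‖ - ‖y‖ ≤ ‖y + ((|H| + ‖y‖ + 1) / ‖v‖) • v‖ := by
    have := norm_sub_norm_le (((|H| + ‖y‖ + 1) / ‖v‖) • v) (-y)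
    rw [norm_neg, sub_neg_eq_add, add_comm _ y] at this
    exact this
  rw [h2] at h3
  have := le_abs_self H
  linarith

/-- `C(K)` is infinite-dimensional for an infinite compact Hausdorff space. -/
theorem not_finite [Infinite K] : ¬ Module.Finite ℝ C(K, ℝ) := by
  intro hfin
  obtain ⟨s, hs⟩ := Infinite.exists_subset_card_eq K (Module.finrank ℝ C(K, ℝ) + 1)
  let R : C(K, ℝ) →ₗ[ℝ] (s → ℝ) :=
    { toFun := fun f x => f x
      map_add' := fun f g => rfl
      map_smul' := fun c f => rfl }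
  have hR : Function.Surjective R := by
    intro u
    have hcl : IsClosed ((s : Set K)) := s.finite_toSet.isClosed
    have : Finite (s : Set K) := s.finite_toSet
    obtain ⟨g, hg⟩ := ContinuousMap.exists_restrict_eq hcl
      (⟨fun x => u ⟨x.1, by simpa using x.2⟩, continuous_of_discreteTopology⟩ : C((s : Set K), ℝ))
    refine ⟨g, funext fun x => ?_⟩
    exact DFunLike.congr_fun hg ⟨x.1, by simp⟩
  have h1 := LinearMap.finrank_le_finrank_of_surjective (f := R) hR
  rw [Module.finrank_fintype_fun_eq_card, Fintype.card_coe, hs] at h1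
  omega

theorem main [Infinite K] : ¬ Nonempty ({f : K → ℝ // Continuous f} ≃ₜ WeakSpace ℝ C(K, ℝ)) :=
  not_homeomorph not_finite

end Pool.Agent.CpCw
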