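import Pool.Agent.Lib_helper7.CpCw.Basic

set_option autoImplicit false

/-!
# Continuous maps from `C_p(K)` to a normed space with its weak topology are locally bounded
-/

namespace Pool.Agent.CpCw

open Set Topology

variable {X : Type*} [NormedAddCommGroup X] [NormedSpace ℝ X]
variable {K : Type*} [TopologicalSpace K]

/-- `C_p(K)`: continuous real functions with the topology of pointwise convergence. -/
abbrev Cp (K : Type*) [TopologicalSpace K] := {f : K → ℝ // Continuous f}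

theorem exists_finset {φ : Cp K → ℝ} {f₀ : Cp K} (hφ : ContinuousAt φ f₀) {U : Set ℝ}
    (hU : U ∈ 𝓝 (φ f₀)) :
    ∃ A : Finset K, ∃ δ : ℝ, 0 < δ ∧ ∀ f : Cp K, (∀ t ∈ A, |f.1 t - f₀.1 t| < δ) → φ f ∈ U := by
  have h : φ ⁻¹' U ∈ 𝓝 f₀ := hφ hU
  rw [nhds_subtype_eq_comap, Filter.mem_comap] at h
  obtain ⟨V, hV, hVU⟩ := h
  rw [nhds_pi, Filter.mem_pi] at hV
  obtain ⟨I, hI, t, ht, htV⟩ := hV
  have hev : ∀ᶠ δ in 𝓝[>] (0 : ℝ), ∀ i ∈ I, Metric.ball (f₀.1 i) δ ⊆ t i := by
    rw [Filter.eventually_all_finite hI]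
    intro i _
    obtain ⟨r, hr, hrt⟩ := Metric.mem_nhds_iff.1 (ht i)
    filter_upwards [Ioo_mem_nhdsGT hr] with δ hδ
    exact (Metric.ball_subset_ball hδ.2.le).trans hrt
  obtain ⟨δ, hδ, hδ0⟩ := (hev.and self_mem_nhdsWithin).exists
  refine ⟨hI.toFinset, δ, hδ0, fun f hf => hVU ?_⟩
  refine htV (fun i hi => hδ i hi ?_)
  rw [Metric.mem_ball, Real.dist_eq]
  exact hf i (hI.mem_toFinset.2 hi)

variable [CompactSpace K]

/-- Baire category argument in the dual. -/
theorem uniform_control [Nonempty K] (Ψ : Cp K → X) (z : Cp K) (hz : z.1 = 0) (hΨ0 : Ψ z = 0)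
    (hΨ : ∀ ν : StrongDual ℝ X, Continuous fun f => ν (Ψ f)) :
    ∃ m : ℕ, ∃ ε R : ℝ, 0 < ε ∧ 0 < R ∧ ∀ ν : StrongDual ℝ X, ‖ν‖ ≤ 1 →
      ∃ A : Finset K, A.card ≤ m ∧ ∀ f : Cp K, (∀ x ∈ A, |f.1 x| < ε) → |ν (Ψ f)| ≤ R := by
  classical
  let S : ℕ → Set (StrongDual ℝ X × (ℕ → K)) := fun n =>
    {p | ∀ f : Cp K, (∀ i < n, |f.1 (p.2 i)| < 1 / ((n : ℝ) + 1)) → |p.1 (Ψ f)| ≤ 1}
  let Z : ℕ → Set (StrongDual ℝ X) := fun n => Prod.fst '' S n
  have hS : ∀ n, IsClosed (S n) := by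
    intro n
    have : S n = ⋂ f : Cp K, ((⋃ i ∈ Finset.range n,
        {p : StrongDual ℝ X × (ℕ → K) | 1 / ((n : ℝ) + 1) ≤ |f.1 (p.2 i)|}) ∪
        {p : StrongDual ℝ X × (ℕ → K) | |p.1 (Ψ f)| ≤ 1}) := by
      ext p
      simp only [S, mem_setOf_eq, mem_iInter, mem_union, mem_iUnion, Finset.mem_range, exists_prop]
      refine forall_congr' fun f => ?_
      constructor
      · intro h
        by_cases h' : ∀ i < n, |f.1 (p.2 i)| < 1 / ((n : ℝ) + 1)
        · exact Or.inr (h h')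
        · push Not at h'
          exact Or.inl h'
      · rintro (⟨i, hi, h⟩ | h) h'
        · exact absurd (h' i hi) (not_lt.2 h)
        · exact h
    rw [this]
    refine isClosed_iInter fun f => IsClosed.union ?_ ?_
    · refine isClosed_biUnion_finset fun i _ => ?_
      refine isClosed_le continuous_const ?_
      exact (f.2.comp ((continuous_apply i).comp continuous_snd)).abs
    · refine isClosed_le ?_ continuous_const
      have : Continuous fun p : StrongDual ℝ X × (ℕ → K) => p.1 (Ψ f) := by fun_prop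
      exact this.abs
  have hZ : ∀ n, IsClosed (Z n) := fun n => isClosedMap_fst_of_compactSpace _ (hS n)
  have hcov : ⋃ n, Z n = univ := by
    rw [eq_univ_iff_forall]
    intro ν
    have h0 : Metric.ball (0 : ℝ) 1 ∈ 𝓝 (ν (Ψ z)) := by
      rw [hΨ0, map_zero]; exact Metric.ball_mem_nhds _ one_pos
    obtain ⟨A, δ, hδ, hA⟩ := exists_finset (hΨ ν).continuousAt h0
    obtain ⟨N, hN⟩ := exists_nat_gt (1 / δ)
    let n := max N A.card
    refine mem_iUnion.2 ⟨n, ?_⟩
    obtain ⟨x₀⟩ := (inferInstance : Nonempty K)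
    let t : ℕ → K := fun i => if h : i < A.card then (A.equivFin.symm ⟨i, h⟩ : K) else x₀
    refine ⟨(ν, t), fun f hf => ?_, rfl⟩
    have hlt : 1 / ((n : ℝ) + 1) < δ := by
      have h1 : 1 / δ < (n : ℝ) + 1 := by
        have : (N : ℝ) ≤ n := by exact_mod_cast le_max_left _ _
        linarith
      rw [div_lt_iff₀ (by positivity)]
      rw [div_lt_iff₀ hδ] at h1
      linarith
    have := hA f (fun x hx => by
      have hx' : t (A.equivFin ⟨x, hx⟩) = x := by
        have h1 : ((A.equivFin ⟨x, hx⟩ : Fin A.card) : ℕ) < A.card := Fin.is_lt _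
        simp only [t, h1, dif_pos]
        simp
      have h2 := hf (A.equivFin ⟨x, hx⟩) (lt_of_lt_of_le (Fin.is_lt _) (le_max_right _ _))
      simp only [hx'] at h2
      rw [hz]
      simpa using h2.trans hlt)
    rw [Metric.mem_ball, dist_zero_right, Real.norm_eq_abs] at this
    exact this.le
  obtain ⟨n, hn⟩ := nonempty_interior_of_iUnion_of_closed hZ hcov
  obtain ⟨ν₀, hν₀⟩ := hn
  obtain ⟨ρ, hρ, hball⟩ := Metric.mem_nhds_iff.1 (mem_interior_iff_mem_nhds.1 hν₀)
  refine ⟨n + n, 1 / ((n : ℝ) + 1), 4 / ρ, by positivity, by positivity, fun ν hν => ?_⟩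
  obtain ⟨p₀, hp₀, hp₀'⟩ := hball (Metric.mem_ball_self hρ)
  have hmem : ν₀ + (ρ / 2) • ν ∈ Metric.ball ν₀ ρ := by
    rw [Metric.mem_ball, dist_eq_norm, add_sub_cancel_left, norm_smul, Real.norm_eq_abs,
      abs_of_pos (by positivity : 0 < ρ / 2)]
    nlinarith [norm_nonneg ν]
  obtain ⟨p₁, hp₁, hp₁'⟩ := hball hmem
  refine ⟨(Finset.range n).image p₀.2 ∪ (Finset.range n).image p₁.2, ?_, fun f hf => ?_⟩
  · refine (Finset.card_union_le _ _).trans (add_le_add ?_ ?_) <;>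
    exact Finset.card_image_le.trans (by simp)
  · have h0 := hp₀ f (fun i hi => hf _ (Finset.mem_union_left _
      (Finset.mem_image_of_mem _ (Finset.mem_range.2 hi))))
    have h1 := hp₁ f (fun i hi => hf _ (Finset.mem_union_right _
      (Finset.mem_image_of_mem _ (Finset.mem_range.2 hi))))
    rw [hp₀'] at h0
    rw [hp₁'] at h1
    have e : (ν₀ + (ρ / 2) • ν) (Ψ f) = ν₀ (Ψ f) + ρ / 2 * ν (Ψ f) := by simp
    rw [e] at h1
    have h2 : |ρ / 2 * ν (Ψ f)| ≤ 2 := by
      have h3 := abs_sub_abs_le_abs_sub (ρ / 2 * ν (Ψ f)) (-(ν₀ (Ψ f)))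
      rw [abs_neg, sub_neg_eq_add, add_comm (ρ / 2 * ν (Ψ f))] at h3
      linarith
    rw [abs_mul, abs_of_pos (by positivity : 0 < ρ / 2)] at h2
    rw [le_div_iff₀ hρ]
    linarith

variable [T2Space K]

/-- If `V` is an open neighbourhood of a finite set `B` and `f` is smaller than `ε` in absolute
value on the part of the finite set `C` outside `B`, then `f` can be changed off `C` so that it is
smaller than `ε` off `V`. -/
theorem localize (f : Cp K) (ε : ℝ) (hε : 0 < ε) (C B : Finset K) (V : Set K)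
    (hV : IsOpen V) (hB : ∀ x ∈ B, x ∈ V) (hC : ∀ x ∈ C, x ∉ B → |f.1 x| < ε) :
    ∃ f' : Cp K, (∀ x ∈ C, f'.1 x = f.1 x) ∧ ∀ x, x ∉ V → |f'.1 x| < ε := by
  -- a bound smaller than `ε`
  obtain ⟨ε', hε'0, hε', hC'⟩ : ∃ ε' : ℝ, 0 < ε' ∧ ε' < ε ∧ ∀ x ∈ C, x ∉ B → |f.1 x| ≤ ε' := by
    have hev : ∀ᶠ r in 𝓝[<] ε, ∀ x ∈ C, x ∉ B → |f.1 x| ≤ r := by
      have := (Filter.eventually_all_finset C (l := 𝓝[<] ε)
        (p := fun x r => x ∉ B → |f.1 x| ≤ r)).2
      refine this (fun x hx => ?_)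
      by_cases hxB : x ∈ B
      · exact Filter.Eventually.of_forall fun r h => absurd hxB h
      · filter_upwards [Ioo_mem_nhdsLT (hC x hx hxB)] with r hr _
        exact hr.1.le
    have hev2 : ∀ᶠ r in 𝓝[<] ε, r ∈ Ioo 0 ε := Ioo_mem_nhdsLT hε
    obtain ⟨r, hr, hr'⟩ := (hev.and hev2).exists
    exact ⟨r, hr'.1, hr'.2, hr⟩
  obtain ⟨φ, hφ0, hφ1, hφ⟩ := exists_continuous_zero_one_of_isClosed (s := Vᶜ) (t := (B : Set K))
    hV.isClosed_compl B.finite_toSet.isClosed (by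
      rw [Set.disjoint_left]
      intro x hx hxB
      exact hx (hB x (by simpa using hxB)))
  refine ⟨⟨fun x => φ x * f.1 x + (1 - φ x) * max (-ε') (min (f.1 x) ε'), ?_⟩, ?_, ?_⟩
  · have hf := f.2
    have := φ.continuous
    fun_prop
  · intro x hx
    by_cases hxB : x ∈ B
    · have h1 : φ x = 1 := by
        have := hφ1 (show x ∈ (B : Set K) by simpa using hxB)
        simpa using this
      simp [h1]
    · have h1 := abs_le.1 (hC' x hx hxB)
      have h2 : max (-ε') (min (f.1 x) ε') = f.1 x := by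
        rw [min_eq_left h1.2, max_eq_right h1.1]
      simp only [h2]
      ring
  · intro x hx
    have h1 : φ x = 0 := by
      have := hφ0 (show x ∈ Vᶜ from hx)
      simpa using this
    simp only [h1, zero_mul, zero_add, sub_zero, one_mul]
    rw [abs_lt]
    constructor
    · exact lt_of_lt_of_le (by linarith) (le_max_left _ _)
    · exact max_lt (by linarith) ((min_le_right _ _).trans_lt hε')

/-- **Local boundedness**: a map `Ψ` from `C_p(K)` to a normed space which is continuous for the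
weak topology and vanishes at `0` is norm-bounded on a neighbourhood of `0`. -/
theorem locally_bounded (Ψ : Cp K → X) (z : Cp K) (hz : z.1 = 0) (hΨ0 : Ψ z = 0)
    (hΨ : ∀ ν : StrongDual ℝ X, Continuous fun f => ν (Ψ f)) :
    ∃ H : ℝ, ∃ ε : ℝ, 0 < ε ∧ ∃ A : Finset K, ∀ f : Cp K, (∀ x ∈ A, |f.1 x| < ε) → ‖Ψ f‖ ≤ H := by
  classical
  rcases isEmpty_or_nonempty K with hK | hK
  · refine ⟨0, 1, one_pos, ∅, fun f _ => ?_⟩
    have : f = z := Subtype.ext (funext fun x => (hK.false x).elim)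
    rw [this, hΨ0, norm_zero]
  obtain ⟨m, ε, R, hε, hR, hctl⟩ := uniform_control Ψ z hz hΨ0 hΨ
  set H : ℝ := 8 ^ (m + 1) * (R + 1) with hH
  by_contra hcon
  push Not at hcon
  -- for every finite `A` there is `f` small on `A` with `‖Ψ f‖ > H`, robustly
  have step : ∀ A : Finset K, ∃ f : Cp K, ∃ C : Finset K, (∀ x ∈ A, |f.1 x| < ε) ∧
      ∀ f' : Cp K, (∀ x ∈ C, f'.1 x = f.1 x) → H < ‖Ψ f'‖ := by
    intro A
    obtain ⟨f, hf, hfH⟩ := hcon H ε hε A
    obtain ⟨ν, hν, hνf⟩ := exists_dual_vector'' ℝ (Ψ f)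
    have hνf' : ν (Ψ f) = ‖Ψ f‖ := by simpa using hνf
    have hU : Ioi H ∈ 𝓝 (ν (Ψ f)) := Ioi_mem_nhds (by rw [hνf']; exact hfH)
    obtain ⟨C, δ, hδ, hC⟩ := exists_finset (hΨ ν).continuousAt hU
    refine ⟨f, C, hf, fun f' hf' => ?_⟩
    have h1 : H < ν (Ψ f') := hC f' (fun x hx => by rw [hf' x hx]; simpa using hδ)
    have h2 : ν (Ψ f') ≤ ‖Ψ f'‖ := by
      have h3 := ν.le_opNorm (Ψ f')
      rw [Real.norm_eq_abs] at h3
      have h4 := le_abs_self (ν (Ψ f'))
      nlinarith [norm_nonneg (Ψ f')]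
    exact h1.trans_le h2
  choose F D hF hD using step
  -- the recursive construction
  let A : ℕ → Finset K := fun j => Nat.rec ∅ (fun _ A => A ∪ D A) j
  have hA : ∀ j, A (j + 1) = A j ∪ D (A j) := fun j => rfl
  have hmono : Monotone A := monotone_nat_of_le_succ fun j => by
    rw [hA]; exact Finset.subset_union_left
  let B : ℕ → Finset K := fun j => D (A j) \ A j
  have hBA : ∀ i j, i < j → B i ⊆ A j := by
    intro i j hij
    refine Finset.Subset.trans ?_ (hmono (Nat.succ_le_of_lt hij))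
    rw [Nat.succ_eq_add_one, hA]
    exact Finset.sdiff_subset.trans Finset.subset_union_right
  have hBdisj : ∀ i j, i ≠ j → ∀ x, x ∈ B i → x ∉ B j := by
    intro i j hij x hxi hxj
    rcases lt_or_gt_of_ne hij with h | h
    · exact (Finset.mem_sdiff.1 hxj).2 (hBA i j h hxi)
    · exact (Finset.mem_sdiff.1 hxi).2 (hBA j i h hxj)
  obtain ⟨U, hU, hUd⟩ := (A (m + 1)).finite_toSet.t2_separation
  let V : ℕ → Set K := fun j => ⋃ x ∈ B j, U x
  have hVo : ∀ j, IsOpen (V j) := fun j => isOpen_biUnion fun x _ => (hU x).2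
  have hBV : ∀ j, ∀ x ∈ B j, x ∈ V j := fun j x hx => mem_biUnion hx (hU x).1
  have hVd : ∀ i j, i < m + 1 → j < m + 1 → i ≠ j → ∀ y, y ∈ V i → y ∉ V j := by
    intro i j hi hj hij y hyi hyj
    simp only [V, mem_iUnion, exists_prop] at hyi hyj
    obtain ⟨a, ha, hya⟩ := hyi
    obtain ⟨b, hb, hyb⟩ := hyj
    have hab : a ≠ b := by
      rintro rfl
      exact hBdisj i j hij a ha hb
    have ha' : a ∈ (A (m + 1) : Set K) := by exact_mod_cast hBA i (m + 1) hi ha
    have hb' : b ∈ (A (m + 1) : Set K) := by exact_mod_cast hBA j (m + 1) hj hb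
    exact Set.disjoint_left.1 (hUd ha' hb' hab) hya hyb
  have hloc : ∀ j : ℕ, ∃ f' : Cp K, (∀ x ∈ D (A j), f'.1 x = (F (A j)).1 x) ∧
      ∀ x, x ∉ V j → |f'.1 x| < ε := by
    intro j
    refine localize (F (A j)) ε hε (D (A j)) (B j) (V j) (hVo j) (hBV j) (fun x hx hxB => ?_)
    refine hF (A j) x ?_
    by_contra h
    exact hxB (Finset.mem_sdiff.2 ⟨hx, h⟩)
  choose G hG1 hG2 using hloc
  have hbig : ∀ j, H < ‖Ψ (G j)‖ := fun j => hD (A j) (G j) (hG1 j)
  obtain ⟨ν, hν, hνG⟩ := exists_dual (m + 1) (fun j : Fin (m + 1) => Ψ (G j))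
  obtain ⟨S, hS, hSctl⟩ := hctl ν hν
  have hpt : ∀ j : Fin (m + 1), ∃ x ∈ S, x ∈ V j := by
    intro j
    by_contra hno
    push Not at hno
    have h1 := hSctl (G j) (fun x hx => hG2 j x (hno x hx))
    have h2 := hνG j
    have h3 : R + 1 ≤ (1 / 8 : ℝ) ^ (m + 1) * ‖Ψ (G j)‖ := by
      have h4 := (hbig j).le
      have h5 : (1 / 8 : ℝ) ^ (m + 1) * H = R + 1 := by
        rw [hH, ← mul_assoc, ← mul_pow]; norm_num
      rw [← h5]
      exact mul_le_mul_of_nonneg_left h4 (by positivity)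
    linarith
  choose x hxS hxV using hpt
  have hinj : Function.Injective x := by
    intro i j hij
    by_contra hne
    have hne' : (i : ℕ) ≠ j := fun h => hne (Fin.ext h)
    exact hVd i j i.2 j.2 hne' (x i) (hxV i) (by rw [hij]; exact hxV j)
  have hcard : m + 1 ≤ S.card := by
    calc m + 1 = Fintype.card (Fin (m + 1)) := (Fintype.card_fin _).symm
      _ = (Finset.univ.image x).card := by
          rw [Finset.card_image_of_injective _ hinj, Finset.card_univ]
      _ ≤ S.card := Finset.card_le_card (fun y hy => by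
          obtain ⟨i, _, rfl⟩ := Finset.mem_image.1 hy
          exact hxS i)
  omega

end Pool.Agent.CpCw
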